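import Pool.Agent.W223.AC.Stms

/-!
# AC-LOCM: elements of `I ^ m` vanish to order `m`
-/

set_option autoImplicit false

namespace Pool.Agent.W395.AC.LOCM

open Polynomial IsDedekindDomain NumberField
open Pool.Agent.W223.AC

variable {A : Type} [CommRing A] [Algebra ℚ[X] A] [Module.Finite ℚ[X] A]

/-- the bound `x` holds for the values of `g` away from finitely many primes -/
def Bd {s : ℕ} (z : Fin s → A) (m : ℕ) (g : A) : Prop :=
  ∃ M : ℕ, M ≠ 0 ∧ ∀ (L : Type) [Field L] [NumberField L] (φ : A →+* L)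
      (v : HeightOneSpectrum (𝓞 L)), (M : 𝓞 L) ∉ v.asIdeal → v.valuation L (φ (tt A)) ≤ 1 →
      (∀ k, v.valuation L (φ (z k)) < 1) → v.valuation L (φ g) ≤ WithZero.exp (-(m : ℤ))

lemma not_mem_mul {L : Type} [Field L] [NumberField L] {v : HeightOneSpectrum (𝓞 L)} {M N : ℕ}
    (h : ((M * N : ℕ) : 𝓞 L) ∉ v.asIdeal) : (M : 𝓞 L) ∉ v.asIdeal ∧ (N : 𝓞 L) ∉ v.asIdeal := by
  rw [Nat.cast_mul] at h
  exact ⟨fun hM => h (v.asIdeal.mul_mem_right _ hM), fun hN => h (v.asIdeal.mul_mem_left _ hN)⟩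

lemma not_mem_prod {L : Type} [Field L] [NumberField L] {v : HeightOneSpectrum (𝓞 L)} {s : ℕ}
    {M : Fin s → ℕ} (h : ((∏ k, M k : ℕ) : 𝓞 L) ∉ v.asIdeal) (k : Fin s) :
    (M k : 𝓞 L) ∉ v.asIdeal := by
  intro hk
  apply h
  rw [← Finset.mul_prod_erase Finset.univ M (Finset.mem_univ k), Nat.cast_mul]
  exact v.asIdeal.mul_mem_right _ hk

/-- every element is integral away from finitely many primes -/
lemma bd0 (hM : StmtMULT) (hL : StmtLOC) (c : A) :
    ∃ M : ℕ, M ≠ 0 ∧ ∀ (L : Type) [Field L] [NumberField L] (φ : A →+* L)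
      (v : HeightOneSpectrum (𝓞 L)), (M : 𝓞 L) ∉ v.asIdeal → v.valuation L (φ (tt A)) ≤ 1 →
      v.valuation L (φ c) ≤ 1 := by
  obtain ⟨n, hn, hi⟩ := hM A c
  refine ⟨n, hn, ?_⟩
  intro L _ _ φ v hv ht
  have h1 := hL A _ hi L φ v ht
  have h2 : v.valuation L ((n : L)) = 1 := by
    have h3 : ((n : L)) = algebraMap (𝓞 L) L (n : 𝓞 L) := by rw [map_natCast]
    rw [h3]
    refine le_antisymm (v.valuation_le_one _) (not_lt.1 fun hlt => hv ?_)
    exact (v.valuation_lt_one_iff_mem _).1 hlt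
  rw [map_mul, map_natCast, map_mul, h2, one_mul] at h1
  exact h1

lemma le_exp_neg_one {x : WithZero (Multiplicative ℤ)} (h : x < 1) : x ≤ WithZero.exp (-1 : ℤ) := by
  by_cases h0 : x = 0
  · rw [h0]
    exact zero_le
  · apply WithZero.le_exp_of_log_le
    have h1 : WithZero.log x < 0 := by
      rw [WithZero.log_lt_iff_lt_exp h0, WithZero.exp_zero]
      exact h
    omega

lemma bd1 (hM : StmtMULT) (hL : StmtLOC) {s : ℕ} (z : Fin s → A) (g : A)
    (hg : g ∈ Ideal.span (Set.range z)) : Bd z 1 g := by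
  obtain ⟨c, hc⟩ := Ideal.mem_span_range_iff_exists_fun.1 hg
  choose M hM0 hMv using fun k => bd0 hM hL (c k)
  refine ⟨∏ k, M k, Finset.prod_ne_zero_iff.2 fun k _ => hM0 k, ?_⟩
  intro L _ _ φ v hv ht hz
  refine le_exp_neg_one ?_
  rw [← hc, map_sum]
  refine Valuation.map_sum_lt _ one_ne_zero fun k _ => ?_
  rw [map_mul, map_mul]
  exact lt_of_le_of_lt (mul_le_of_le_one_left' (hMv k L φ v (not_mem_prod hv k) ht)) (hz k)

omit [Module.Finite ℚ[X] A] in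
lemma bd_mul {s : ℕ} {z : Fin s → A} {m n : ℕ} {g h : A} (hg : Bd z m g) (hh : Bd z n h) :
    Bd z (m + n) (g * h) := by
  obtain ⟨M, hM0, hM⟩ := hg
  obtain ⟨N, hN0, hN⟩ := hh
  refine ⟨M * N, Nat.mul_ne_zero hM0 hN0, ?_⟩
  intro L _ _ φ v hv ht hz
  obtain ⟨h1, h2⟩ := not_mem_mul hv
  rw [map_mul, map_mul, Nat.cast_add, neg_add, WithZero.exp_add]
  exact mul_le_mul' (hM L φ v h1 ht hz) (hN L φ v h2 ht hz)

omit [Module.Finite ℚ[X] A] in
lemma bd_add {s : ℕ} {z : Fin s → A} {m : ℕ} {g h : A} (hg : Bd z m g) (hh : Bd z m h) :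
    Bd z m (g + h) := by
  obtain ⟨M, hM0, hM⟩ := hg
  obtain ⟨N, hN0, hN⟩ := hh
  refine ⟨M * N, Nat.mul_ne_zero hM0 hN0, ?_⟩
  intro L _ _ φ v hv ht hz
  obtain ⟨h1, h2⟩ := not_mem_mul hv
  rw [map_add]
  exact (Valuation.map_add _ _ _).trans (max_le (hM L φ v h1 ht hz) (hN L φ v h2 ht hz))

theorem t (hM : StmtMULT) (hL : StmtLOC) : StmtLOCM := by
  intro A _ _ _ s z m g hg
  show Bd z m g
  induction m generalizing g with
  | zero =>
    obtain ⟨M, hM0, h⟩ := bd0 hM hL g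
    refine ⟨M, hM0, ?_⟩
    intro L _ _ φ v hv ht _
    rw [Nat.cast_zero, neg_zero, WithZero.exp_zero]
    exact h L φ v hv ht
  | succ m ih =>
    rw [pow_succ] at hg
    refine Submodule.mul_induction_on hg (fun a ha b hb => ?_) fun a b ha hb => bd_add ha hb
    exact bd_mul (ih a ha) (bd1 hM hL z b hb)

end Pool.Agent.W395.AC.LOCM
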